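import Pool.Agent.Helper40_Dio.FStmt

/-!
# DIO, Part F: module QTS (the type `s` does not occur for large `c`)
-/

set_option autoImplicit false

namespace Pool.Agent.DIO.H46

open Real Pool.Agent.DIO

/-- A polylogarithmic bound `Y` whose `n`-th power is less than `c`. -/
theorem exY (C : ℝ) (hC : 1 ≤ C) (n : ℕ) : ∃ C1 : ℕ, ∀ c : ℕ, C1 < c →
    ∃ Y : ℕ, 100 ≤ Y ∧ C * (Real.log c) ^ 61 ≤ Y ∧ Y ^ n < c := by
  have hpos : (0 : ℝ) < 1 / (2 * (C + 101) ^ n) := by positivity
  have h1 := (Real.isLittleO_pow_log_id_atTop (n := 61 * n)).def hpos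
  have h2 := (tendsto_natCast_atTop_atTop (R := ℝ)).eventually h1
  obtain ⟨N, hN⟩ := Filter.eventually_atTop.1 h2
  refine ⟨max N 3, fun c hc => ?_⟩
  have hcN : N ≤ c := (le_max_left _ _).trans hc.le
  have hc3 : 3 < c := (le_max_right _ _).trans_lt hc
  have hcpos : (0 : ℝ) < c := by exact_mod_cast (by omega : 0 < c)
  have hc3' : (3 : ℝ) < c := by exact_mod_cast hc3
  have hlog : 1 ≤ Real.log c := by
    rw [Real.le_log_iff_exp_le hcpos]
    have := Real.exp_one_lt_d9
    linarith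
  have h3 := hN c hcN
  simp only [id_eq, Real.norm_eq_abs] at h3
  rw [abs_of_nonneg (pow_nonneg (by linarith) _), abs_of_pos hcpos] at h3
  have hL : 1 ≤ Real.log c ^ 61 := one_le_pow₀ hlog
  refine ⟨max 100 ⌈C * Real.log c ^ 61⌉₊, le_max_left _ _, ?_, ?_⟩
  · exact (Nat.le_ceil _).trans (by exact_mod_cast le_max_right _ _)
  · have h5 : ((max 100 ⌈C * Real.log c ^ 61⌉₊ : ℕ) : ℝ) ≤ (C + 101) * Real.log c ^ 61 := by
      have h6 : (⌈C * Real.log c ^ 61⌉₊ : ℝ) < C * Real.log c ^ 61 + 1 :=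
        Nat.ceil_lt_add_one (by positivity)
      rw [Nat.cast_max]
      refine max_le ?_ ?_
      · push_cast
        nlinarith
      · nlinarith
    have h7 : ((max 100 ⌈C * Real.log c ^ 61⌉₊ : ℕ) : ℝ) ^ n < c := by
      have hCn : (0 : ℝ) < (C + 101) ^ n := by positivity
      calc ((max 100 ⌈C * Real.log c ^ 61⌉₊ : ℕ) : ℝ) ^ n
          ≤ ((C + 101) * Real.log c ^ 61) ^ n := pow_le_pow_left₀ (Nat.cast_nonneg _) h5 n
        _ = (C + 101) ^ n * Real.log c ^ (61 * n) := by rw [mul_pow, ← pow_mul]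
        _ ≤ (C + 101) ^ n * (1 / (2 * (C + 101) ^ n) * c) :=
            mul_le_mul_of_nonneg_left h3 hCn.le
        _ = c / 2 := by field_simp
        _ < c := by linarith
    exact_mod_cast h7

/-- The data of a non-Euler triple are symmetric in the first two entries. -/
theorem NEd.swap {a b c r s t g u v w : ℕ} (h : NEd a b c r s t g u v w) :
    NEd b a c r t s g v u w where
  ha := h.hb
  hab := h.hab.symm
  hb := h.ha
  hr := by rw [h.hr]; ring
  hs := h.ht
  ht := h.hs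
  hg := h.hg
  hga := h.hgb
  hgb := h.hga
  hu := h.hv
  hv := h.hu
  hw := h.hw
  hc := by have := h.hc; nlinarith
  s_eq := h.t_eq
  t_eq := h.s_eq
  w_eq := by rw [h.w_eq]; ring
  w_eq' := by rw [← h.w_eq']; ring
  u_eq' := h.v_eq'
  v_eq' := h.u_eq'
  c_gt := by have := h.c_gt; nlinarith
  c_le := by have := h.c_le; nlinarith

/-- QTS. -/
theorem qts (hNet : NetStatement) (hApx : ApxStatement) (hCll : CllStatement)
    (hMcs : McsStatement) (hMbs : MbsStatement) (hSgs : SgsStatement) (h1 : Ps1Statement)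
    (h2 : Ps2Statement) (h3 : Ps3Statement) (h4 : Ps4Statement) (h5 : Ps5Statement)
    (h6 : Ps6Statement) (h7 : Ps7Statement) (h8 : Ps8Statement) : QtsStatement := by
  obtain ⟨C, hC, hA⟩ := hApx
  obtain ⟨C1, hC1⟩ := exY C hC 5000
  refine ⟨max C1 (10 ^ 9), ?_⟩
  intro a b c d r s t g u v w x y z ε μ ν hc hctx hned htyp
  have hcC1 : C1 < c := (le_max_left _ _).trans_lt hc
  have hc9 : 10 ^ 9 ≤ c := ((le_max_right _ _).trans_lt hc).le
  obtain ⟨Y, hY, hYC, hYc⟩ := hC1 c hcC1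
  obtain ⟨hμ, hν, hlam⟩ := (hA a b c d r s t g u v w x y z hctx hned).2.1 ε μ ν htyp
  have hμ' : μ ≤ Y := by exact_mod_cast hμ.trans hYC
  have hν' : ν ≤ Y := by exact_mod_cast hν.trans hYC
  have hε := htyp.1
  have hν1 := htyp.2.1
  have hab := hctx.hab
  have hrel := hMcs a b c r s t g u v w x y z ε μ ν hned htyp
  have hag : Y ^ 420 < a * g := by
    by_contra hcon
    exact absurd (h1 a b c r s t g u v w ε μ ν Y hab hned hε hν1 hY hμ' hν' hrel
      (Or.inl (not_lt.1 hcon))) (not_le.2 hYc)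
  have hab' : Y ^ 420 < a * b := by
    by_contra hcon
    exact absurd (h1 a b c r s t g u v w ε μ ν Y hab hned hε hν1 hY hμ' hν' hrel
      (Or.inr (not_lt.1 hcon))) (not_le.2 hYc)
  obtain ⟨hs1, hs2⟩ := hSgs a b c d r s t g u v w x y z ε μ ν hctx hned htyp hc9
  obtain ⟨hε1, hrel0⟩ := h2 a b c r s t g u v w ε μ ν Y hab hned hε hν1 hY hμ' hν' hs2 hrel
    hag hab'
  subst hε1
  obtain ⟨hμν, hsz⟩ := hs1 rfl
  obtain ⟨hg1, hg2, hg3⟩ := h3 a b c r s t g u v w μ ν Y hab hned hν1 hY hν' hμν hsz hrel0 hab'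
  have hu := hned.hu
  have hv := hned.hv
  have hr := hned.hr
  -- the final case
  have fin : ∀ h p q k0 : ℕ, g < b → NEd a g b u r v h p q k0 → False := by
    intro h p q k0 hgb hn
    rcases Nat.lt_or_ge (Y ^ 40) (a * h) with hah | hah
    · obtain ⟨lam, hl⟩ := hCll a b c d r s t g u v w x y z 1 μ ν hctx hned htyp
      have hl' : lam ≤ Y := by exact_mod_cast (hlam lam hl).trans hYC
      have hdiv := hMbs a b c r s t g u v w x y z 1 μ ν lam hned htyp hl
      rw [one_mul] at hdiv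
      obtain ⟨e1, e2, e3, e4, e5⟩ := h7 a b c r s t g u v w h p q k0 μ ν lam Y hab hgb hned hn
        hν1 hY hν' hl' hab' hah hg2 hg3 hdiv
      exact h8 a b c r s t g u v w h p q k0 ν lam Y hab hned hn hν1 hY hν' hl' hah e1 e2 e3 e4 e5
    · exact h6 a b c r s t g u v w h p q k0 μ ν Y hab hned hn hν1 hY hν' hμν hrel0 hab' hah
  rcases lt_trichotomy g b with hgb | hgb | hgb
  · rcases lt_trichotomy a g with hag' | hag' | hag'
    · rcases hNet a g b u r v hned.ha hag' hgb hu hr (by rw [hv]; ring) with he | ⟨h, p, q, k0, hn⟩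
      · exact h4 a b c r s t g u v w μ ν Y hab hned hν1 hY hν' hμν hrel0 hab' hg2 (Or.inr he)
      · exact fin h p q k0 hgb hn
    · exact hned.hga hag'.symm
    · rcases hNet g a b u v r hned.hg hag' hab (by rw [hu]; ring) (by rw [hv]; ring) hr with
        he | ⟨h, p, q, k0, hn⟩
      · exact h4 a b c r s t g u v w μ ν Y hab hned hν1 hY hν' hμν hrel0 hab' hg2
          (Or.inr (by rw [he]; ring))
      · exact fin h q p k0 hgb (NEd.swap hn)
  · exact hned.hgb hgb
  · rcases hNet a b g r u v hned.ha hab hgb hr hu hv with he | ⟨h, p, q, k0, hn⟩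
    · exact h4 a b c r s t g u v w μ ν Y hab hned hν1 hY hν' hμν hrel0 hab' hg2 (Or.inl he)
    · exact h5 a b c r s t g u v w h p q k0 μ ν Y hab hned hn hν1 hY hν' hμν hrel0 hab' hg1

end Pool.Agent.DIO.H46
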